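import Mathlib

/-! Clique-width by `k`-expressions, 2-connected graphs, prime graphs, hereditary classes. -/

namespace Pool.Agent.Lib_MP_b23e6d_ins

/-- A `k`-expression whose vertices are named by elements of `V`. The four constructors are the
four operations: one vertex `v` with label `i`; the disjoint union; all edges between the label
classes `i` and `j`; relabelling `i` to `j`. -/
inductive Expr (k : ℕ) (V : Type) : Type
  | vertex (i : Fin k) (v : V) : Expr k V
  | union (e f : Expr k V) : Expr k V
  | join (i j : Fin k) (e : Expr k V) : Expr k V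
  | relabel (i j : Fin k) (e : Expr k V) : Expr k V

namespace Expr

variable {k : ℕ} {V : Type}

/-- the vertex set of the graph built by an expression -/
def verts : Expr k V → Set V
  | vertex _ v => {v}
  | union e f => e.verts ∪ f.verts
  | join _ _ e => e.verts
  | relabel _ _ e => e.verts

/-- `e.lab v a`: the vertex `v` of the graph built by `e` carries the label `a` -/
def lab : Expr k V → V → Fin k → Prop
  | vertex i w => fun v a => v = w ∧ a = i
  | union e f => fun v a => e.lab v a ∨ f.lab v a
  | join _ _ e => e.lab
  | relabel i j e => fun v a => (e.lab v a ∧ a ≠ i) ∨ (e.lab v i ∧ a = j)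

/-- the adjacency of the graph built by an expression -/
def adj : Expr k V → V → V → Prop
  | vertex _ _ => fun _ _ => False
  | union e f => fun u v => e.adj u v ∨ f.adj u v
  | join i j e => fun u v => e.adj u v ∨ (e.lab u i ∧ e.lab v j) ∨ (e.lab u j ∧ e.lab v i)
  | relabel _ _ e => e.adj

/-- unions are of vertex-disjoint graphs, and edges are added between two different labels -/
def Valid : Expr k V → Prop
  | vertex _ _ => True
  | union e f => e.Valid ∧ f.Valid ∧ Disjoint e.verts f.verts
  | join i j e => i ≠ j ∧ e.Valid
  | relabel _ _ e => e.Valid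

end Expr

/-- the clique-width of `G` is at most `k`: some `j`-expression with `j ≤ k` produces `G` -/
def CliqueWidthLE {V : Type} (G : SimpleGraph V) (k : ℕ) : Prop :=
  ∃ j ≤ k, ∃ e : Expr j V, e.Valid ∧ e.verts = Set.univ ∧ ∀ u v, G.Adj u v ↔ e.adj u v

/-- `G` is prime: every module is empty, everything, or a singleton -/
def IsPrime {V : Type} (G : SimpleGraph V) : Prop :=
  ∀ M : Set V, (∀ x, x ∉ M → ∀ y ∈ M, ∀ z ∈ M, (G.Adj x y ↔ G.Adj x z)) →
    M = ∅ ∨ M = Set.univ ∨ ∃ v, M = {v}

/-- `G` is 2-connected: at least three vertices, connected, and still connected after deleting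
any one vertex -/
def TwoConnected {V : Type} (G : SimpleGraph V) : Prop :=
  3 ≤ Nat.card V ∧ G.Connected ∧ ∀ v : V, (G.induce {w | w ≠ v}).Connected

/-- `G` has at least one vertex, and every vertex of `G` has at least two neighbours -/
def MinDegreeTwo {V : Type} (G : SimpleGraph V) : Prop :=
  Nonempty V ∧ ∀ v : V, ∃ x y, x ≠ y ∧ G.Adj v x ∧ G.Adj v y

/-- a class of finite graphs closed under induced subgraphs and isomorphism -/
def Hereditary (𝒢 : (V : Type) → SimpleGraph V → Prop) : Prop :=
  (∀ (V : Type) (G : SimpleGraph V), 𝒢 V G → Finite V) ∧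
  ∀ (V W : Type) (G : SimpleGraph V) (H : SimpleGraph W), 𝒢 V G → Nonempty (H ↪g G) → 𝒢 W H

end Pool.Agent.Lib_MP_b23e6d_ins
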