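import Mathlib
import Pool.Agent.Lib_MP_b23e6d.Final
import Pool.Agent.Lib_MP_b23e6d_ins.Defs

namespace Pool.Agent.Lib_MP_b23e6d_ins

open Pool.Agent.LibMPb23e6d

/-! ### expressions and the closure conditions -/

theorem expr_closed {k n : ℕ} (e : Expr k (Fin n)) (he : e.Valid) :
    ∃ (ℓ : ℕ → Fin k) (H : SimpleGraph ℕ) (S : Finset ℕ),
      (∀ P : Finset ℕ → SimpleGraph ℕ → (ℕ → Fin k) → Prop, Closed k P → P S H ℓ) ∧
      (∀ x, x ∈ S ↔ ∃ v ∈ e.verts, v.val = x) ∧
      (∀ v a, e.lab v a ↔ (v ∈ e.verts ∧ ℓ v.val = a)) ∧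
      (∀ x y, H.Adj x y ↔ ∃ u v, e.adj u v ∧ u.val = x ∧ v.val = y) := by
  induction e with
  | vertex i w =>
    refine ⟨fun _ => i, ⊥, {w.val}, fun P hP => hP.2.1 _ _, ?_, ?_, ?_⟩
    · intro x
      simp [Expr.verts, eq_comm]
    · intro v a
      simp only [Expr.lab, Expr.verts, Set.mem_singleton_iff]
      constructor
      · rintro ⟨h1, h2⟩
        exact ⟨h1, h2.symm⟩
      · rintro ⟨h1, h2⟩
        exact ⟨h1, h2.symm⟩
    · intro x y
      simp [Expr.adj]
  | union e f ihe ihf =>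
    obtain ⟨h1, h2, h3⟩ := he
    obtain ⟨l1, H1, S1, p1, s1, b1, a1⟩ := ihe h1
    obtain ⟨l2, H2, S2, p2, s2, b2, a2⟩ := ihf h2
    have hd : Disjoint S1 S2 := by
      rw [Finset.disjoint_left]
      intro x hx hx'
      obtain ⟨v, hv, rfl⟩ := (s1 x).mp hx
      obtain ⟨w, hw, hwv⟩ := (s2 _).mp hx'
      have : w = v := Fin.ext hwv
      subst this
      exact Set.disjoint_left.mp h3 hv hw
    refine ⟨_, H1 ⊔ H2, S1 ∪ S2, fun P hP => hP.2.2.1 _ _ _ _ _ _ (p1 P hP) (p2 P hP) hd, ?_, ?_, ?_⟩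
    · intro x
      rw [Finset.mem_union, s1, s2]
      simp only [Expr.verts, Set.mem_union]
      constructor
      · rintro (⟨v, hv, h⟩ | ⟨v, hv, h⟩)
        · exact ⟨v, Or.inl hv, h⟩
        · exact ⟨v, Or.inr hv, h⟩
      · rintro ⟨v, hv | hv, h⟩
        · exact Or.inl ⟨v, hv, h⟩
        · exact Or.inr ⟨v, hv, h⟩
    · intro v a
      have k1 : v.val ∈ S1 ↔ v ∈ e.verts := by
        rw [s1]
        constructor
        · rintro ⟨w, hw, h⟩
          rwa [← Fin.ext h]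
        · intro h
          exact ⟨v, h, rfl⟩
      simp only [Expr.lab, Expr.verts, Set.mem_union, b1, b2]
      by_cases hv : v ∈ e.verts
      · have hv2 : v ∉ f.verts := Set.disjoint_left.mp h3 hv
        rw [if_pos (k1.mpr hv)]
        simp [hv, hv2]
      · rw [if_neg (fun h => hv (k1.mp h))]
        simp [hv]
    · intro x y
      rw [SimpleGraph.sup_adj, a1, a2]
      simp only [Expr.adj]
      constructor
      · rintro (⟨u, v, h, h'⟩ | ⟨u, v, h, h'⟩)
        · exact ⟨u, v, Or.inl h, h'⟩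
        · exact ⟨u, v, Or.inr h, h'⟩
      · rintro ⟨u, v, h | h, h'⟩
        · exact Or.inl ⟨u, v, h, h'⟩
        · exact Or.inr ⟨u, v, h, h'⟩
  | join i j e ih =>
    obtain ⟨h1, h2⟩ := he
    obtain ⟨l, H, S, p, s, b, a⟩ := ih h2
    refine ⟨l, _, S, fun P hP => hP.2.2.2.1 _ _ _ i j h1 (p P hP), s, b, ?_⟩
    intro x y
    rw [SimpleGraph.sup_adj, SimpleGraph.fromRel_adj, a]
    simp only [Expr.adj]
    have k1 : ∀ x, ∀ c : Fin k, (x ∈ S ∧ l x = c) ↔ ∃ u, e.lab u c ∧ u.val = x := by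
      intro x c
      rw [s]
      constructor
      · rintro ⟨⟨v, hv, rfl⟩, h⟩
        exact ⟨v, (b v c).mpr ⟨hv, h⟩, rfl⟩
      · rintro ⟨u, hu, rfl⟩
        obtain ⟨h3, h4⟩ := (b u c).mp hu
        exact ⟨⟨u, h3, rfl⟩, h4⟩
    constructor
    · rintro (⟨u, v, h, h'⟩ | ⟨_, ⟨hx, hy, hlx, hly⟩ | ⟨hy, hx, hly, hlx⟩⟩)
      · exact ⟨u, v, Or.inl h, h'⟩
      · obtain ⟨u, hu, hu'⟩ := (k1 x i).mp ⟨hx, hlx⟩
        obtain ⟨v, hv, hv'⟩ := (k1 y j).mp ⟨hy, hly⟩
        exact ⟨u, v, Or.inr (Or.inl ⟨hu, hv⟩), hu', hv'⟩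
      · obtain ⟨u, hu, hu'⟩ := (k1 x j).mp ⟨hx, hlx⟩
        obtain ⟨v, hv, hv'⟩ := (k1 y i).mp ⟨hy, hly⟩
        exact ⟨u, v, Or.inr (Or.inr ⟨hu, hv⟩), hu', hv'⟩
    · rintro ⟨u, v, h | ⟨hu, hv⟩ | ⟨hu, hv⟩, hux, hvy⟩
      · exact Or.inl ⟨u, v, h, hux, hvy⟩
      · obtain ⟨hx, hlx⟩ := (k1 x i).mpr ⟨u, hu, hux⟩
        obtain ⟨hy, hly⟩ := (k1 y j).mpr ⟨v, hv, hvy⟩
        refine Or.inr ⟨?_, Or.inl ⟨hx, hy, hlx, hly⟩⟩
        rintro rfl
        exact h1 (hlx.symm.trans hly)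
      · obtain ⟨hx, hlx⟩ := (k1 x j).mpr ⟨u, hu, hux⟩
        obtain ⟨hy, hly⟩ := (k1 y i).mpr ⟨v, hv, hvy⟩
        refine Or.inr ⟨?_, Or.inr ⟨hy, hx, hly, hlx⟩⟩
        rintro rfl
        exact h1 (hly.symm.trans hlx)
  | relabel i j e ih =>
    obtain ⟨l, H, S, p, s, b, a⟩ := ih he
    refine ⟨_, H, S, fun P hP => hP.2.2.2.2 _ _ _ i j (p P hP), s, ?_, a⟩
    intro v c
    simp only [Expr.lab, Expr.verts, b]
    by_cases h : l v.val = i
    · rw [if_pos h]
      constructor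
      · rintro (⟨⟨h1, h2⟩, h3⟩ | ⟨⟨h1, _⟩, h2⟩)
        · exact absurd (h2.symm.trans h) h3
        · exact ⟨h1, h2.symm⟩
      · rintro ⟨h1, h2⟩
        exact Or.inr ⟨⟨h1, h⟩, h2.symm⟩
    · rw [if_neg h]
      constructor
      · rintro (⟨⟨h1, h2⟩, _⟩ | ⟨⟨_, h1⟩, _⟩)
        · exact ⟨h1, h2⟩
        · exact absurd h1 h
      · rintro ⟨h1, h2⟩
        exact Or.inl ⟨⟨h1, h2⟩, fun h3 => h (h2.trans h3)⟩

theorem closed_of_cwle {k n : ℕ} {G : SimpleGraph (Fin n)} (h : CliqueWidthLE G k) :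
    ∃ j ≤ k, ∃ ℓ : ℕ → Fin j, ∀ P : Finset ℕ → SimpleGraph ℕ → (ℕ → Fin j) → Prop, Closed j P →
      P (Finset.range n) (G.map Fin.valEmbedding) ℓ := by
  obtain ⟨j, hj, e, he, hv, ha⟩ := h
  obtain ⟨ℓ, H, S, p, s, -, a⟩ := expr_closed e he
  have hS : S = Finset.range n := by
    ext x
    rw [s, hv, Finset.mem_range]
    constructor
    · rintro ⟨v, -, rfl⟩
      exact v.isLt
    · intro hx
      exact ⟨⟨x, hx⟩, Set.mem_univ _, rfl⟩
  have hH : H = G.map Fin.valEmbedding := by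
    ext x y
    rw [a, SimpleGraph.map_adj]
    constructor
    · rintro ⟨u, v, h, hu, hv⟩
      exact ⟨u, v, (ha u v).mpr h, hu, hv⟩
    · rintro ⟨u, v, h, hu, hv⟩
      exact ⟨u, v, (ha u v).mp h, hu, hv⟩
  subst hS hH
  exact ⟨j, hj, ℓ, p⟩

/-! ### the split graph has large clique-width -/

theorem sfin_unbounded (j m : ℕ) (hm : 9 * j + 6 ≤ m) :
    ¬ ∃ ℓ : ℕ → Fin j, ∀ P : Finset ℕ → SimpleGraph ℕ → (ℕ → Fin j) → Prop, Closed j P →
      P (Finset.range (m + m * m)) ((Sfin m).map Fin.valEmbedding) ℓ := by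
  classical
  let T := 3 * j + 2
  have hTe : T = 3 * j + 2 := rfl
  have hT3 : 3 * T ≤ m := by omega
  rintro ⟨ℓ, hℓ⟩
  let u : ℕ → ℕ := fun l => if h : l < m then (enc m (Sum.inl ⟨l, h⟩)).val else 0
  let y : ℕ → ℕ → ℕ := fun j i => if h : j < m ∧ i < m then
    (enc m (Sum.inr (⟨j, h.1⟩, ⟨i, h.2⟩))).val else 0
  have hu1 : ∀ l (h : l < m), u l = (enc m (Sum.inl ⟨l, h⟩)).val := by
    intro l h
    simp only [u, dif_pos h]
  have hy1 : ∀ j i (hj : j < m) (hi : i < m),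
      y j i = (enc m (Sum.inr (⟨j, hj⟩, ⟨i, hi⟩))).val := by
    intro j i hj hi
    simp only [y, dif_pos (And.intro hj hi)]
  have hinj : Set.InjOn u (Finset.range m : Finset ℕ) := by
    intro a ha b hb hab
    have ha' : a < m := by simpa using ha
    have hb' : b < m := by simpa using hb
    rw [hu1 a ha', hu1 b hb'] at hab
    have := (enc m).injective (Fin.val_injective hab)
    simpa using this
  have hadj : ∀ l < m, ∀ j < m, ∀ i < m,
      (((Sfin m).map Fin.valEmbedding).Adj (u l) (y j i) ↔ (l = j ∨ i ≤ l)) := by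
    intro l hl j hj i hi
    rw [hu1 l hl, hy1 j i hj hi]
    have e1 : ∀ a b : Fin (m + m * m),
        ((Sfin m).map Fin.valEmbedding).Adj a.val b.val ↔ (Sfin m).Adj a b :=
      fun a b => (SimpleGraph.Embedding.map Fin.valEmbedding (Sfin m)).map_rel_iff (a := a) (b := b)
    rw [e1]
    show S.Adj (vmap m _) (vmap m _) ↔ _
    have e2 : vmap m (enc m (Sum.inl ⟨l, hl⟩)) = Sum.inl l := by
      simp [vmap]
    have e3 : vmap m (enc m (Sum.inr (⟨j, hj⟩, ⟨i, hi⟩))) = Sum.inr (j, i) := by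
      simp [vmap]
    rw [e2, e3]
    rfl
  have hsub : (Finset.range m).image u ⊆ Finset.range (m + m * m) := by
    intro x hx
    simp only [Finset.mem_image, Finset.mem_range] at hx ⊢
    obtain ⟨l, hl, rfl⟩ := hx
    rw [hu1 l hl]
    exact (enc m (Sum.inl ⟨l, hl⟩)).isLt
  have hcardU : ((Finset.range m).image u).card = m := by
    rw [Finset.card_image_of_injOn hinj, Finset.card_range]
  have hΓ : ∀ x z, ((Sfin m).map Fin.valEmbedding).Adj x z → x ∈ Finset.range (m + m * m) := by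
    intro x z h
    rw [SimpleGraph.map_adj] at h
    obtain ⟨a, b, _, rfl, _⟩ := h
    exact Finset.mem_range.mpr a.isLt
  have hTm : T ≤ (Finset.range (m + m * m) ∩ (Finset.range m).image u).card := by
    rw [Finset.inter_eq_right.mpr hsub, hcardU]
    omega
  obtain ⟨A, hA1, hA2, hA3⟩ := exists_balanced j (m + m * m) T (by omega)
    ((Finset.range m).image u) _ hΓ ℓ hℓ hTm
  exact no_balanced j m T le_rfl hT3 _ u y hinj hadj A hA1 hA2 hA3

theorem not_cwle_sfin (k : ℕ) : ¬ CliqueWidthLE (Sfin (9 * k + 6)) k := by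
  intro h
  obtain ⟨j, hj, hℓ⟩ := closed_of_cwle h
  exact sfin_unbounded j (9 * k + 6) (by omega) hℓ

/-! ### 2-connected graphs -/

theorem minDeg_of_twoConnected {V : Type} {G : SimpleGraph V} (h : TwoConnected G) :
    MinDegreeTwo G := by
  classical
  obtain ⟨h3, hc, h2⟩ := h
  have hfin : Finite V := Nat.finite_of_card_ne_zero (by omega)
  have := Fintype.ofFinite V
  rw [Nat.card_eq_fintype_card] at h3
  have hthird : ∀ v w : V, ∃ t : V, t ≠ v ∧ t ≠ w := by
    intro v w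
    by_contra hcon
    push Not at hcon
    have hsub : (Finset.univ : Finset V) ⊆ {v, w} := by
      intro t _
      by_cases h : t = v
      · simp [h]
      · simp [hcon t h]
    have h4 := Finset.card_le_card hsub
    have h5 : ({v, w} : Finset V).card ≤ 2 := Finset.card_le_two
    rw [Finset.card_univ] at h4
    omega
  have hnb : ∀ v w : V, v ≠ w → ∃ x, x ≠ w ∧ G.Adj v x := by
    intro v w hvw
    obtain ⟨t, htv, htw⟩ := hthird v w
    obtain ⟨p⟩ := (h2 w).preconnected ⟨v, hvw⟩ ⟨t, htw⟩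
    cases p with
    | nil => exact absurd rfl htv
    | @cons _ x _ hadj _ => exact ⟨x.1, x.2, hadj⟩
  refine ⟨hc.nonempty, fun v => ?_⟩
  obtain ⟨w, hw, -⟩ := hthird v v
  obtain ⟨x, -, hx⟩ := hnb v w hw.symm
  obtain ⟨y, hyx, hy⟩ := hnb v x hx.ne
  exact ⟨x, y, hyx.symm, hx, hy⟩

/-! ### induced subgraphs of the split graph -/

theorem split_not_prime {V : Type} [Finite V] {G : SimpleGraph V} (φ : G ↪g S)
    (hd : MinDegreeTwo G) (hp : IsPrime G) : False := by
  classical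
  have := Fintype.ofFinite V
  obtain ⟨⟨v0⟩, hnb2⟩ := hd
  let L : Finset V := Finset.univ.filter (fun v => ∃ l, φ v = Sum.inl l)
  let idx : V → ℕ := fun v => Sum.elim id (fun _ => 0) (φ v)
  have hL : L.Nonempty := by
    obtain ⟨x, y, _, hx, _⟩ := hnb2 v0
    have hadj : S.Adj (φ v0) (φ x) := φ.map_rel_iff.mpr hx
    rcases h0 : φ v0 with a | p
    · exact ⟨v0, by
        simp only [L, Finset.mem_filter, Finset.mem_univ, true_and]
        exact ⟨a, h0⟩⟩
    · rcases h1 : φ x with b | q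
      · exact ⟨x, by
          simp only [L, Finset.mem_filter, Finset.mem_univ, true_and]
          exact ⟨b, h1⟩⟩
      · rw [h0, h1] at hadj
        exact hadj.elim
  obtain ⟨v, hvL, hmax⟩ := Finset.exists_max_image L idx hL
  simp only [L, Finset.mem_filter, Finset.mem_univ, true_and] at hvL hmax
  obtain ⟨l, hl⟩ := hvL
  have hidx : idx v = l := by simp [idx, hl]
  have hdom : ∀ x, x ≠ v → G.Adj v x := by
    intro x hx
    rw [← φ.map_rel_iff, hl]
    rcases hxφ : φ x with b | q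
    · intro hlb
      apply hx
      apply φ.injective
      rw [hl, hxφ, hlb]
    · obtain ⟨y, z, hyz, hy, hz⟩ := hnb2 x
      have hy' : S.Adj (φ x) (φ y) := φ.map_rel_iff.mpr hy
      have hz' : S.Adj (φ x) (φ z) := φ.map_rel_iff.mpr hz
      rw [hxφ] at hy' hz'
      rcases hyφ : φ y with a | r
      · rcases hzφ : φ z with b | r
        · rw [hyφ] at hy'
          rw [hzφ] at hz'
          have hab : a ≠ b := by
            intro hab
            apply hyz
            apply φ.injective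
            rw [hyφ, hzφ, hab]
          have ha : a ≤ l := by
            have := hmax y ⟨a, hyφ⟩
            rw [hidx] at this
            simpa [idx, hyφ] using this
          have hb : b ≤ l := by
            have := hmax z ⟨b, hzφ⟩
            rw [hidx] at this
            simpa [idx, hzφ] using this
          have hy2 : a = q.1 ∨ q.2 ≤ a := hy'
          have hz2 : b = q.1 ∨ q.2 ≤ b := hz'
          show l = q.1 ∨ q.2 ≤ l
          right
          rcases hy2 with h1 | h1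
          · rcases hz2 with h3 | h3
            · exact absurd (h1.trans h3.symm) hab
            · omega
          · omega
        · rw [hzφ] at hz'
          exact hz'.elim
      · rw [hyφ] at hy'
        exact hy'.elim
  obtain ⟨x, y, hxy, hx, hy⟩ := hnb2 v
  rcases hp {x | x ≠ v} (by
    intro x hx y hy z hz
    simp only [Set.mem_ofPred_eq, ne_eq, not_not] at hx hy hz
    subst hx
    exact ⟨fun _ => hdom z hz, fun _ => hdom y hy⟩) with h | h | ⟨w, h⟩
  · have : x ∈ ({x | x ≠ v} : Set V) := hx.ne.symm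
    rw [h] at this
    exact this
  · have : v ∈ ({x | x ≠ v} : Set V) := by rw [h]; trivial
    exact this rfl
  · have h1 : x ∈ ({x | x ≠ v} : Set V) := hx.ne.symm
    have h2 : y ∈ ({x | x ≠ v} : Set V) := hy.ne.symm
    rw [h] at h1 h2
    exact hxy (h1.trans h2.symm)

end Pool.Agent.Lib_MP_b23e6d_ins
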