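import Mathlib
import Pool.Agent.Lib_MP_b23e6d_ins.Defs

namespace Pool.Agent.Lib_MP_b23e6d_ins

open SimpleGraph Fin.CommRing

/-! ### cycles -/

theorem cyc_adj {n : ℕ} {u v : Fin (n + 3)} :
    (cycleGraph (n + 3)).Adj u v ↔ v = u + 1 ∨ u = v + 1 := by
  have h : (cycleGraph (n + 3)).Adj u v ↔ u - v = 1 ∨ v - u = 1 := cycleGraph_adj
  rw [h]
  constructor
  · rintro (h | h)
    · right
      rw [← h]
      ring
    · left
      rw [← h]
      ring
  · rintro (h | h)
    · right
      rw [h]
      ring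
    · left
      rw [h]
      ring

theorem cyc_ind {n : ℕ} (P : Fin (n + 3) → Prop) (a : Fin (n + 3)) (h0 : P a)
    (hs : ∀ v, P v → P (v + 1)) (w : Fin (n + 3)) : P w := by
  have h : ∀ i : ℕ, P (a + (i : Fin (n + 3))) := by
    intro i
    induction i with
    | zero =>
      rw [Nat.cast_zero, add_zero]
      exact h0
    | succ i ih =>
      rw [Nat.cast_succ, ← add_assoc]
      exact hs _ ih
  have := h (w - a).val
  rwa [Fin.cast_val_eq_self, add_sub_cancel] at this

theorem cyc_of_embed {V : Type} {G : SimpleGraph V} {n : ℕ} (φ : G ↪g cycleGraph n)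
    (hd : MinDegreeTwo G) : ∃ m, n = m + 3 ∧ Nonempty (G ≃g cycleGraph n) := by
  obtain ⟨⟨v0⟩, hd⟩ := hd
  obtain ⟨x0, y0, hxy0, hx0, hy0⟩ := hd v0
  have h3 : 3 ≤ n := by
    have h1 := (φ v0).isLt
    have h2 := (φ x0).isLt
    have h3 := (φ y0).isLt
    have h4 : (φ v0).val ≠ (φ x0).val := fun h => hx0.ne (φ.injective (Fin.ext h))
    have h5 : (φ v0).val ≠ (φ y0).val := fun h => hy0.ne (φ.injective (Fin.ext h))
    have h6 : (φ x0).val ≠ (φ y0).val := fun h => hxy0 (φ.injective (Fin.ext h))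
    omega
  obtain ⟨m, rfl⟩ : ∃ m, n = m + 3 := ⟨n - 3, by omega⟩
  refine ⟨m, rfl, ?_⟩
  have hs : Function.Surjective φ := by
    intro w
    apply cyc_ind (fun w => ∃ v, φ v = w) (φ v0) ⟨v0, rfl⟩
    rintro _ ⟨v, rfl⟩
    obtain ⟨x, y, hxy, hx, hy⟩ := hd v
    have hx' : (cycleGraph (m + 3)).Adj (φ v) (φ x) := φ.map_rel_iff.mpr hx
    have hy' : (cycleGraph (m + 3)).Adj (φ v) (φ y) := φ.map_rel_iff.mpr hy
    rw [cyc_adj] at hx' hy'
    rcases hx' with h | h
    · exact ⟨x, h⟩
    · rcases hy' with h' | h'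
      · exact ⟨y, h'⟩
      · exact absurd (φ.injective (add_right_cancel (h.symm.trans h'))) hxy
  exact ⟨RelIso.ofSurjective φ hs⟩

theorem natCast_ne_zero' {n i : ℕ} (h0 : 0 < i) (h : i < n + 3) : (i : Fin (n + 3)) ≠ 0 := by
  rw [Ne, Fin.natCast_eq_zero]
  intro hd
  have := Nat.le_of_dvd h0 hd
  omega

theorem cyc_twoConnected (n : ℕ) : TwoConnected (cycleGraph (n + 3)) := by
  refine ⟨by simp, cycleGraph_connected, fun v => ?_⟩
  have hne : ∀ i : ℕ, i + 1 < n + 3 → v + ((i + 1 : ℕ) : Fin (n + 3)) ≠ v := by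
    intro i hi h
    exact natCast_ne_zero' (Nat.succ_pos i) hi (add_eq_left.mp h)
  have key : ∀ (i : ℕ) (hi : i + 1 < n + 3),
      ((cycleGraph (n + 3)).induce {w | w ≠ v}).Reachable
        ⟨v + ((0 + 1 : ℕ) : Fin (n + 3)), hne 0 (by omega)⟩
        ⟨v + ((i + 1 : ℕ) : Fin (n + 3)), hne i hi⟩ := by
    intro i
    induction i with
    | zero =>
      intro hi
      exact Reachable.refl _
    | succ i ih =>
      intro hi
      refine (ih (by omega)).trans (Adj.reachable ?_)
      show (cycleGraph (n + 3)).Adj _ _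
      rw [cyc_adj]
      left
      show v + ((i + 1 + 1 : ℕ) : Fin (n + 3)) = v + ((i + 1 : ℕ) : Fin (n + 3)) + 1
      rw [Nat.cast_succ (i + 1), add_assoc]
  rw [connected_iff_exists_forall_reachable]
  refine ⟨⟨v + ((0 + 1 : ℕ) : Fin (n + 3)), hne 0 (by omega)⟩, ?_⟩
  rintro ⟨w, hw⟩
  have hw0 : w - v ≠ 0 := sub_ne_zero.mpr hw
  have hval : (w - v).val ≠ 0 := fun h => hw0 (Fin.ext h)
  obtain ⟨i, hi⟩ : ∃ i, (w - v).val = i + 1 := ⟨(w - v).val - 1, by omega⟩
  have hlt : i + 1 < n + 3 := by
    rw [← hi]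
    exact (w - v).isLt
  have hwe : v + ((i + 1 : ℕ) : Fin (n + 3)) = w := by
    rw [← hi, Fin.cast_val_eq_self, add_sub_cancel]
  have := key i hlt
  convert this using 2
  exact hwe.symm

theorem cyc_prime (n : ℕ) : IsPrime (cycleGraph (n + 5)) := by
  intro M hM
  by_contra hcon
  push Not at hcon
  obtain ⟨h1, h2, h3⟩ := hcon
  obtain ⟨a, ha⟩ := h1
  obtain ⟨y, hy, hy1⟩ : ∃ y ∈ M, y + 1 ∉ M := by
    by_contra hc
    push Not at hc
    apply h2
    rw [Set.eq_univ_iff_forall]
    intro w
    exact cyc_ind (n := n + 2) (fun w => w ∈ M) a ha hc w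
  have hadj : ∀ u v : Fin (n + 5), (cycleGraph (n + 5)).Adj u v ↔ v = u + 1 ∨ u = v + 1 :=
    fun u v => cyc_adj (n := n + 2)
  have hall : ∀ z ∈ M, z = y ∨ z = y + 2 := by
    intro z hz
    have := (hM _ hy1 y hy z hz).mp ((hadj _ _).mpr (Or.inr rfl))
    rw [hadj] at this
    rcases this with h | h
    · right
      rw [h]
      ring
    · left
      exact (add_right_cancel h).symm
  have hy2 : y + 2 ∈ M := by
    by_contra hc
    apply h3 y
    ext z
    constructor
    · intro hz
      rcases hall z hz with h | h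
      · exact h
      · exact absurd (h ▸ hz) hc
    · rintro rfl
      exact hy
  have hn : ∀ i : ℕ, 0 < i → i < n + 5 → (i : Fin (n + 5)) ≠ 0 :=
    fun i h0 h => natCast_ne_zero' (n := n + 2) h0 h
  have n1 : (1 : Fin (n + 5)) ≠ 0 := by
    have := hn 1 (by omega) (by omega)
    exact_mod_cast this
  have n2 : (2 : Fin (n + 5)) ≠ 0 := by
    have := hn 2 (by omega) (by omega)
    exact_mod_cast this
  have n3 : (3 : Fin (n + 5)) ≠ 0 := by
    have := hn 3 (by omega) (by omega)
    exact_mod_cast this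
  have n4 : (4 : Fin (n + 5)) ≠ 0 := by
    have := hn 4 (by omega) (by omega)
    exact_mod_cast this
  by_cases hx : y - 1 ∈ M
  · rcases hall _ hx with h | h
    · apply n1
      linear_combination -h
    · apply n3
      linear_combination -h
  · have := (hM _ hx y hy (y + 2) hy2).mp ((hadj _ _).mpr (Or.inl (by ring)))
    rw [hadj] at this
    rcases this with h | h
    · apply n2
      linear_combination h
    · apply n4
      linear_combination -h

theorem cyc_three_not_prime : ¬ IsPrime (cycleGraph 3) := by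
  intro h
  have h1 := h {0, 1} (by
    intro x hx y hy z hz
    simp only [Set.mem_insert_iff, Set.mem_singleton_iff] at hx hy hz
    revert x y z
    decide)
  rcases h1 with h1 | h1 | ⟨v, h1⟩
  · have : (0 : Fin 3) ∈ ({0, 1} : Set (Fin 3)) := by simp
    rw [h1] at this
    exact this
  · have : (2 : Fin 3) ∈ ({0, 1} : Set (Fin 3)) := by rw [h1]; trivial
    revert this
    simp
  · have a1 : (0 : Fin 3) ∈ ({0, 1} : Set (Fin 3)) := by simp
    have a2 : (1 : Fin 3) ∈ ({0, 1} : Set (Fin 3)) := by simp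
    rw [h1] at a1 a2
    have := a1.trans a2.symm
    revert this
    decide

theorem cyc_four_not_prime : ¬ IsPrime (cycleGraph 4) := by
  intro h
  have h1 := h {0, 2} (by
    intro x hx y hy z hz
    simp only [Set.mem_insert_iff, Set.mem_singleton_iff] at hx hy hz
    revert x y z
    decide)
  rcases h1 with h1 | h1 | ⟨v, h1⟩
  · have : (0 : Fin 4) ∈ ({0, 2} : Set (Fin 4)) := by simp
    rw [h1] at this
    exact this
  · have : (1 : Fin 4) ∈ ({0, 2} : Set (Fin 4)) := by rw [h1]; trivial
    revert this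
    simp
  · have a1 : (0 : Fin 4) ∈ ({0, 2} : Set (Fin 4)) := by simp
    have a2 : (2 : Fin 4) ∈ ({0, 2} : Set (Fin 4)) := by simp
    rw [h1] at a1 a2
    have := a1.trans a2.symm
    revert this
    decide

theorem IsPrime.iso {V W : Type} {G : SimpleGraph V} {H : SimpleGraph W} (e : G ≃g H)
    (h : IsPrime G) : IsPrime H := by
  intro M hM
  have hMe : e '' (e ⁻¹' M) = M := Set.image_preimage_eq M e.surjective
  rcases h (e ⁻¹' M) (by
    intro x hx y hy z hz
    rw [← e.map_adj_iff, ← e.map_adj_iff]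
    exact hM (e x) hx (e y) hy (e z) hz) with h1 | h1 | ⟨v, h1⟩
  · left
    rw [← hMe, h1, Set.image_empty]
  · right; left
    rw [← hMe, h1, Set.image_univ, e.surjective.range_eq]
  · right; right
    refine ⟨e v, ?_⟩
    rw [← hMe, h1, Set.image_singleton]

/-- a prime graph of minimum degree at least two which is an induced subgraph of a cycle is a
cycle of length at least five -/
theorem cyc_classify {V : Type} {G : SimpleGraph V} {n : ℕ} (φ : G ↪g cycleGraph n)
    (hd : MinDegreeTwo G) (hp : IsPrime G) : ∃ m, 5 ≤ m ∧ Nonempty (G ≃g cycleGraph m) := by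
  obtain ⟨m, rfl, ⟨e⟩⟩ := cyc_of_embed φ hd
  have hp' := hp.iso e
  rcases m with _ | _ | m
  · exact absurd hp' cyc_three_not_prime
  · exact absurd hp' cyc_four_not_prime
  · exact ⟨m + 2 + 3, by omega, ⟨e⟩⟩

/-! ### expressions for cycles -/

/-- an expression for the path `0, 1, …, t + 1`: label `2` on the first vertex, `1` on the last
vertex, `0` on the inner vertices; `3` is the label of a new vertex -/
def pathE (n : ℕ) : ℕ → Expr 4 (Fin (n + 3))
  | 0 => Expr.join 2 1 (Expr.union (Expr.vertex 2 (Fin.ofNat (n + 3) 0))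
      (Expr.vertex 1 (Fin.ofNat (n + 3) 1)))
  | t + 1 => Expr.relabel 3 1 (Expr.relabel 1 0 (Expr.join 1 3
      (Expr.union (pathE n t) (Expr.vertex 3 (Fin.ofNat (n + 3) (t + 2))))))

theorem ofNat_eq {n t : ℕ} (h : t < n + 3) (v : Fin (n + 3)) :
    v = Fin.ofNat (n + 3) t ↔ v.val = t := by
  rw [Fin.ext_iff]
  show v.val = t % (n + 3) ↔ _
  rw [Nat.mod_eq_of_lt h]

theorem pathE_spec (n t : ℕ) (ht : t + 1 < n + 3) :
    (pathE n t).Valid ∧ (∀ v, v ∈ (pathE n t).verts ↔ v.val ≤ t + 1) ∧
    (∀ v a, (pathE n t).lab v a ↔ ((a = 2 ∧ v.val = 0) ∨ (a = 1 ∧ v.val = t + 1) ∨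
      (a = 0 ∧ 0 < v.val ∧ v.val < t + 1))) ∧
    (∀ u v, (pathE n t).adj u v ↔ (u.val ≤ t + 1 ∧ v.val ≤ t + 1 ∧
      (v.val = u.val + 1 ∨ u.val = v.val + 1))) := by
  induction t with
  | zero =>
    have e0 := fun v => ofNat_eq (n := n) (t := 0) (by omega) v
    have e1 := fun v => ofNat_eq (n := n) (t := 1) (by omega) v
    refine ⟨?_, ?_, ?_, ?_⟩
    · refine ⟨by decide, trivial, trivial, ?_⟩
      simp only [Expr.verts]
      rw [Set.disjoint_singleton]
      intro h
      have := (e1 _).mp h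
      have h2 := (e0 _).mp rfl
      omega
    · intro v
      simp only [pathE, Expr.verts, Set.mem_union, Set.mem_singleton_iff, e0, e1]
      omega
    · intro v a
      simp only [pathE, Expr.lab, e0, e1]
      constructor
      · rintro (⟨h1, h2⟩ | ⟨h1, h2⟩)
        · exact Or.inl ⟨h2, h1⟩
        · exact Or.inr (Or.inl ⟨h2, h1⟩)
      · rintro (⟨h1, h2⟩ | ⟨h1, h2⟩ | ⟨_, h2, h3⟩)
        · exact Or.inl ⟨h2, h1⟩
        · exact Or.inr ⟨h2, h1⟩
        · omega
    · intro u v
      simp only [pathE, Expr.lab, Expr.adj, e0, e1]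
      have d1 : ¬ ((1 : Fin 4) = 2) := by decide
      have d2 : ¬ ((2 : Fin 4) = 1) := by decide
      simp only [d1, d2, and_true, and_false, or_false, false_or]
      omega
  | succ t ih =>
    obtain ⟨i1, i2, i3, i4⟩ := ih (by omega)
    have e2 := fun v => ofNat_eq (n := n) (t := t + 2) (by omega) v
    have d03 : ¬ ((0 : Fin 4) = 3) := by decide
    have d01 : ¬ ((0 : Fin 4) = 1) := by decide
    have d02 : ¬ ((0 : Fin 4) = 2) := by decide
    have d10 : ¬ ((1 : Fin 4) = 0) := by decide
    have d12 : ¬ ((1 : Fin 4) = 2) := by decide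
    have d13 : ¬ ((1 : Fin 4) = 3) := by decide
    have d20 : ¬ ((2 : Fin 4) = 0) := by decide
    have d21 : ¬ ((2 : Fin 4) = 1) := by decide
    have d23 : ¬ ((2 : Fin 4) = 3) := by decide
    have d30 : ¬ ((3 : Fin 4) = 0) := by decide
    have d31 : ¬ ((3 : Fin 4) = 1) := by decide
    have d32 : ¬ ((3 : Fin 4) = 2) := by decide
    refine ⟨?_, ?_, ?_, ?_⟩
    · refine ⟨by decide, i1, trivial, ?_⟩
      rw [Set.disjoint_left]
      intro v hv hv'
      have h1 := (i2 v).mp hv
      have h2 := (e2 v).mp hv'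
      omega
    · intro v
      simp only [pathE, Expr.verts, Set.mem_union, Set.mem_singleton_iff, e2, i2]
      omega
    · intro v a
      simp only [pathE, Expr.lab, e2, i3]
      have h4 : ∀ a : Fin 4, a = 0 ∨ a = 1 ∨ a = 2 ∨ a = 3 := by decide
      rcases h4 a with rfl | rfl | rfl | rfl <;>
      simp only [d03, d01, d02, d10, d12, d13, d20, d21, d23, d30, d31, d32, and_true, and_false,
        true_and, false_and, or_false, false_or, not_false_eq_true, ne_eq, not_true_eq_false] <;>
      omega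
    · intro u v
      simp only [pathE, Expr.lab, Expr.adj, e2, i3, i4]
      simp only [d03, d01, d02, d10, d12, d13, d20, d21, d23, d30, d31, d32, and_true, and_false,
        true_and, false_and, or_false, false_or]
      omega

theorem cyc_cwle (n : ℕ) : CliqueWidthLE (cycleGraph (n + 3)) 4 := by
  obtain ⟨i1, i2, i3, i4⟩ := pathE_spec n (n + 1) (by omega)
  refine ⟨4, le_rfl, Expr.join 1 2 (pathE n (n + 1)), ⟨by decide, i1⟩, ?_, ?_⟩
  · rw [Set.eq_univ_iff_forall]
    intro v
    exact (i2 v).mpr (by have := v.isLt; omega)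
  · intro u v
    have d10 : ¬ ((1 : Fin 4) = 0) := by decide
    have d12 : ¬ ((1 : Fin 4) = 2) := by decide
    have d20 : ¬ ((2 : Fin 4) = 0) := by decide
    have d21 : ¬ ((2 : Fin 4) = 1) := by decide
    have hs : ∀ a b : Fin (n + 3), b = a + 1 ↔ (b.val = a.val + 1 ∨ (a.val = n + 2 ∧ b.val = 0)) := by
      intro a b
      rw [Fin.ext_iff, Fin.val_add, Fin.val_one]
      have ha := a.isLt
      have hb := b.isLt
      rcases Nat.lt_or_ge (a.val + 1) (n + 3) with h | h
      · rw [Nat.mod_eq_of_lt h]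
        omega
      · have : a.val + 1 = n + 3 := by omega
        rw [this, Nat.mod_self]
        omega
    rw [cyc_adj, hs, hs]
    simp only [Expr.adj, i3, i4]
    simp only [d10, d12, d20, d21, and_true, and_false, true_and, false_and, or_false, false_or]
    have hu := u.isLt
    have hv := v.isLt
    omega

/-! ### clique-width and isomorphism -/

/-- renaming the vertices of an expression -/
def Expr.map {k : ℕ} {V W : Type} (f : V → W) : Expr k V → Expr k W
  | .vertex i v => .vertex i (f v)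
  | .union e e' => .union (e.map f) (e'.map f)
  | .join i j e => .join i j (e.map f)
  | .relabel i j e => .relabel i j (e.map f)

theorem Expr.map_verts {k : ℕ} {V W : Type} (f : V ≃ W) (e : Expr k V) (v : V) :
    f v ∈ (e.map f).verts ↔ v ∈ e.verts := by
  induction e with
  | vertex i w => simp [Expr.map, Expr.verts]
  | union e e' h h' => simp only [Expr.map, Expr.verts, Set.mem_union, h, h']
  | join i j e h => exact h
  | relabel i j e h => exact h

theorem Expr.map_lab {k : ℕ} {V W : Type} (f : V ≃ W) (e : Expr k V) :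
    ∀ (v : V) (a : Fin k), (e.map f).lab (f v) a ↔ e.lab v a := by
  induction e with
  | vertex i w => intro v a; simp [Expr.map, Expr.lab]
  | union e e' h h' => intro v a; simp only [Expr.map, Expr.lab, h, h']
  | join i j e h => exact h
  | relabel i j e h => intro v a; simp only [Expr.map, Expr.lab, h]

theorem Expr.map_adj {k : ℕ} {V W : Type} (f : V ≃ W) (e : Expr k V) :
    ∀ u v : V, (e.map f).adj (f u) (f v) ↔ e.adj u v := by
  induction e with
  | vertex i w => intro u v; simp [Expr.map, Expr.adj]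
  | union e e' h h' => intro u v; simp only [Expr.map, Expr.adj, h, h']
  | join i j e h => intro u v; simp only [Expr.map, Expr.adj, h, Expr.map_lab]
  | relabel i j e h => exact h

theorem Expr.map_valid {k : ℕ} {V W : Type} (f : V ≃ W) (e : Expr k V) (he : e.Valid) :
    (e.map f).Valid := by
  induction e with
  | vertex i w => trivial
  | union e e' h h' =>
    obtain ⟨h1, h2, h3⟩ := he
    refine ⟨h h1, h' h2, ?_⟩
    rw [Set.disjoint_left] at h3 ⊢
    intro w hw hw'
    obtain ⟨v, rfl⟩ := f.surjective w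
    rw [Expr.map_verts] at hw hw'
    exact h3 hw hw'
  | join i j e h => exact ⟨he.1, h he.2⟩
  | relabel i j e h => exact h he

theorem CliqueWidthLE.iso {k : ℕ} {V W : Type} {G : SimpleGraph V} {H : SimpleGraph W}
    (f : G ≃g H) (h : CliqueWidthLE G k) : CliqueWidthLE H k := by
  obtain ⟨j, hj, e, he, hv, ha⟩ := h
  refine ⟨j, hj, e.map f.toEquiv, e.map_valid f.toEquiv he, ?_, ?_⟩
  · rw [Set.eq_univ_iff_forall] at hv ⊢
    intro w
    obtain ⟨v, rfl⟩ := f.toEquiv.surjective w
    exact (e.map_verts f.toEquiv v).mpr (hv v)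
  · intro a b
    obtain ⟨u, rfl⟩ := f.toEquiv.surjective a
    obtain ⟨v, rfl⟩ := f.toEquiv.surjective b
    rw [e.map_adj f.toEquiv, ← ha]
    exact f.map_adj_iff

end Pool.Agent.Lib_MP_b23e6d_ins
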